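import Pool.Agent.helper65.GD.Spec

set_option autoImplicit false

/-! Row gdm:PDD (helper66): moments of the urn. -/

namespace Pool.Agent.GD

open Finset Metric Filter Topology PowerSeries

/-- the series `(1-z)^(-s)` -/
noncomputable def PDD_C (s : ℝ) : PowerSeries ℝ := PowerSeries.mk (cc s)

theorem PDD_coeff (s : ℝ) (n : ℕ) : coeff n (PDD_C s) = cc s n := coeff_mk _ _

theorem PDD_cc (s : ℝ) (n : ℕ) : cc s (n + 1) * ((n : ℝ) + 1) = (s + n) * cc s n := by
  unfold cc
  rw [prod_range_succ]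
  have h : ((n : ℝ) + 1) ≠ 0 := by positivity
  field_simp

theorem PDD_cc' (s : ℝ) (n : ℕ) : ((n : ℝ) + 1) * cc s (n + 1) = s * cc (s + 1) n := by
  induction n with
  | zero => simp [cc]
  | succ n ih =>
    have h1 := PDD_cc s (n + 1)
    have h2 := PDD_cc (s + 1) n
    have h : ((n : ℝ) + 1) ≠ 0 := by positivity
    apply mul_left_cancel₀ h
    push_cast at h1 ⊢
    calc ((n : ℝ) + 1) * (((n : ℝ) + 1 + 1) * cc s (n + 1 + 1))
        = ((n : ℝ) + 1) * (cc s (n + 1 + 1) * ((n : ℝ) + 1 + 1)) := by ring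
      _ = (s + (n + 1)) * (((n : ℝ) + 1) * cc s (n + 1)) := by rw [h1]; ring
      _ = s * ((s + 1 + n) * cc (s + 1) n) := by rw [ih]; ring
      _ = ((n : ℝ) + 1) * (s * cc (s + 1) (n + 1)) := by rw [← h2]; ring

theorem PDD_sub (F : PowerSeries ℝ) (n : ℕ) :
    coeff (n + 1) ((1 - X) * F) = coeff (n + 1) F - coeff n F := by
  rw [sub_mul, one_mul, map_sub, coeff_succ_X_mul]

theorem PDD_sub0 (F : PowerSeries ℝ) : coeff 0 ((1 - X) * F) = coeff 0 F := by
  rw [sub_mul, one_mul, map_sub, coeff_zero_X_mul, sub_zero]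

theorem PDD_ode (s : ℝ) : (1 - X) * d⁄dX ℝ (PDD_C s) = C s * PDD_C s := by
  ext n
  rw [coeff_C_mul, PDD_coeff]
  cases n with
  | zero =>
    rw [PDD_sub0, coeff_derivative, PDD_coeff]
    have := PDD_cc s 0
    push_cast at this ⊢
    rw [this]; ring
  | succ n =>
    rw [PDD_sub, coeff_derivative, coeff_derivative, PDD_coeff, PDD_coeff, PDD_cc]
    push_cast
    ring

theorem PDD_uniq (s : ℝ) (F : PowerSeries ℝ) (h : (1 - X) * d⁄dX ℝ F = C s * F)
    (h0 : coeff 0 F = 1) : F = PDD_C s := by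
  have hrec : ∀ n : ℕ, coeff (n + 1) F * ((n : ℝ) + 1) = (s + n) * coeff n F := by
    intro n
    induction n with
    | zero =>
      have h1 := congrArg (coeff 0) h
      rw [PDD_sub0, coeff_derivative, coeff_C_mul] at h1
      push_cast at h1 ⊢
      rw [h1]; ring
    | succ n ih =>
      have h1 := congrArg (coeff (n + 1)) h
      rw [PDD_sub, coeff_derivative, coeff_derivative, coeff_C_mul] at h1
      push_cast at h1 ⊢
      linear_combination h1
  ext n
  rw [PDD_coeff]
  induction n with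
  | zero => rw [h0]; simp [cc]
  | succ n ih =>
    have h1 := hrec n
    have h2 := PDD_cc s n
    rw [ih, ← h2] at h1
    have h : ((n : ℝ) + 1) ≠ 0 := by positivity
    exact mul_right_cancel₀ h h1

theorem PDD_mul (s t : ℝ) : PDD_C s * PDD_C t = PDD_C (s + t) := by
  apply PDD_uniq
  · rw [Derivation.leibniz, smul_eq_mul, smul_eq_mul, map_add]
    have h1 := PDD_ode s
    have h2 := PDD_ode t
    linear_combination PDD_C t * h1 + PDD_C s * h2
  · rw [coeff_mul]
    simp [PDD_coeff, cc]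

theorem PDD_zero : PDD_C 0 = 1 := by
  symm
  apply PDD_uniq
  · rw [derivative_one, mul_zero, map_zero, zero_mul]
  · simp

theorem PDD_prod {N : ℕ} (s : Fin N → ℝ) : ∏ l, PDD_C (s l) = PDD_C (∑ l, s l) := by
  have h : ∀ t : Finset (Fin N), ∏ l ∈ t, PDD_C (s l) = PDD_C (∑ l ∈ t, s l) := by
    intro t
    induction t using Finset.induction_on with
    | empty => rw [prod_empty, sum_empty, PDD_zero]
    | insert a t ha ih => rw [prod_insert ha, sum_insert ha, ih, PDD_mul]
  exact h univ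

theorem PDD_one : (1 - X) * PDD_C 1 = 1 := by
  ext n
  cases n with
  | zero => rw [PDD_sub0, PDD_coeff]; simp [cc]
  | succ n =>
    have h1 : ∀ m : ℕ, cc 1 m = 1 := by
      intro m
      unfold cc
      apply prod_eq_one
      intro q _
      rw [add_comm]
      exact div_self (by positivity)
    rw [PDD_sub, PDD_coeff, PDD_coeff, h1, h1, sub_self, coeff_one]
    simp

/-- `z/(1-z)` -/
noncomputable def PDD_Y : PowerSeries ℝ := X * PDD_C 1

/-- first moments, one color -/
theorem PDD_D1 (s : ℝ) (a : ℕ) : coeff a (C s * PDD_Y * PDD_C s) = (a : ℝ) * cc s a := by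
  have h1 : C s * PDD_Y * PDD_C s = X * (C s * PDD_C (s + 1)) := by
    unfold PDD_Y
    rw [← PDD_mul]; ring
  rw [h1]
  cases a with
  | zero => rw [coeff_zero_X_mul]; simp
  | succ n =>
    rw [coeff_succ_X_mul, coeff_C_mul, PDD_coeff, ← PDD_cc']
    push_cast; ring

/-- second moments, one color -/
theorem PDD_D2 (s : ℝ) (a : ℕ) :
    coeff a ((C s * (X * PDD_C 2) + C s * C s * (PDD_Y * PDD_Y)) * PDD_C s) =
      (a : ℝ) * ((a : ℝ) * cc s a) := by
  have e2 : PDD_C 1 * PDD_C 1 = PDD_C 2 := by rw [PDD_mul]; norm_num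
  have h1 : (C s * (X * PDD_C 2) + C s * C s * (PDD_Y * PDD_Y)) * PDD_C s =
      X * (C s * (C (s + 1) * PDD_Y * PDD_C (s + 1) + PDD_C (s + 1))) := by
    unfold PDD_Y
    rw [← PDD_mul s 1, ← e2, map_add, map_one]
    have h := PDD_one
    linear_combination (C s * X * PDD_C s * PDD_C 1) * h
  rw [h1]
  cases a with
  | zero => rw [coeff_zero_X_mul]; simp
  | succ n =>
    rw [coeff_succ_X_mul, coeff_C_mul, map_add, PDD_D1, PDD_coeff]
    have h2 := PDD_cc' s n
    push_cast
    linear_combination (-((n : ℝ) + 1)) * h2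

theorem PDD_m1 {N : ℕ} (s : Fin N → ℝ) (l : Fin N) (k : ℕ) :
    ∑ a ∈ ix N k, wt s a * (a l : ℝ) = s l * coeff k (PDD_Y * PDD_C (∑ l, s l)) := by
  classical
  have h1 : C (s l) * (PDD_Y * PDD_C (∑ l, s l)) =
      ∏ l', ((if l' = l then C (s l') * PDD_Y else 1) * PDD_C (s l')) := by
    rw [prod_mul_distrib, prod_ite_eq' univ l, if_pos (mem_univ _), PDD_prod]
    ring
  rw [← coeff_C_mul, h1, coeff_prod]
  refine sum_congr rfl fun a _ => ?_
  have h2 : ∀ l' : Fin N, coeff (a l') ((if l' = l then C (s l') * PDD_Y else 1) * PDD_C (s l')) =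
      (if l' = l then (a l' : ℝ) else 1) * cc (s l') (a l') := by
    intro l'
    by_cases h : l' = l
    · rw [if_pos h, if_pos h, PDD_D1]
    · rw [if_neg h, if_neg h, one_mul, one_mul, PDD_coeff]
  rw [prod_congr rfl (fun l' _ => h2 l'), prod_mul_distrib, prod_ite_eq' univ l,
    if_pos (mem_univ _)]
  unfold wt
  ring

theorem PDD_m2 {N : ℕ} (s : Fin N → ℝ) (l m : Fin N) (k : ℕ) :
    ∑ a ∈ ix N k, wt s a * ((a l : ℝ) * (a m : ℝ)) =
      s l * s m * coeff k (PDD_Y * PDD_Y * PDD_C (∑ l, s l)) +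
      if l = m then s l * coeff k (X * PDD_C 2 * PDD_C (∑ l, s l)) else 0 := by
  classical
  by_cases hlm : l = m
  · subst hlm
    rw [if_pos rfl]
    have h1 : C (s l) * C (s l) * (PDD_Y * PDD_Y * PDD_C (∑ l, s l)) +
        C (s l) * (X * PDD_C 2 * PDD_C (∑ l, s l)) =
        ∏ l', ((if l' = l then C (s l') * (X * PDD_C 2) + C (s l') * C (s l') * (PDD_Y * PDD_Y)
          else 1) * PDD_C (s l')) := by
      rw [prod_mul_distrib, prod_ite_eq' univ l, if_pos (mem_univ _), PDD_prod]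
      ring
    have h3 : s l * s l * coeff k (PDD_Y * PDD_Y * PDD_C (∑ l, s l)) +
        s l * coeff k (X * PDD_C 2 * PDD_C (∑ l, s l)) =
        coeff k (C (s l) * C (s l) * (PDD_Y * PDD_Y * PDD_C (∑ l, s l)) +
        C (s l) * (X * PDD_C 2 * PDD_C (∑ l, s l))) := by
      rw [map_add, coeff_C_mul, ← map_mul, coeff_C_mul]
    rw [h3, h1, coeff_prod]
    refine sum_congr rfl fun a _ => ?_
    have h2 : ∀ l' : Fin N, coeff (a l') ((if l' = l then C (s l') * (X * PDD_C 2) +
        C (s l') * C (s l') * (PDD_Y * PDD_Y) else 1) * PDD_C (s l')) =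
        (if l' = l then (a l' : ℝ) * (a l' : ℝ) else 1) * cc (s l') (a l') := by
      intro l'
      by_cases h : l' = l
      · rw [if_pos h, if_pos h, PDD_D2, mul_assoc]
      · rw [if_neg h, if_neg h, one_mul, one_mul, PDD_coeff]
    rw [prod_congr rfl (fun l' _ => h2 l'), prod_mul_distrib, prod_ite_eq' univ l,
      if_pos (mem_univ _)]
    unfold wt
    ring
  · rw [if_neg hlm, add_zero]
    have h1 : C (s l * s m) * (PDD_Y * PDD_Y * PDD_C (∑ l, s l)) =
        ∏ l', ((if l' = l then C (s l') * PDD_Y else 1) * (if l' = m then C (s l') * PDD_Y else 1) *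
          PDD_C (s l')) := by
      rw [prod_mul_distrib, prod_mul_distrib, prod_ite_eq' univ l, if_pos (mem_univ _),
        prod_ite_eq' univ m, if_pos (mem_univ _), PDD_prod, map_mul]
      ring
    rw [← coeff_C_mul, h1, coeff_prod]
    refine sum_congr rfl fun a _ => ?_
    have h2 : ∀ l' : Fin N, coeff (a l') ((if l' = l then C (s l') * PDD_Y else 1) *
        (if l' = m then C (s l') * PDD_Y else 1) * PDD_C (s l')) =
        (if l' = l then (a l' : ℝ) else 1) * (if l' = m then (a l' : ℝ) else 1) *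
          cc (s l') (a l') := by
      intro l'
      by_cases h : l' = l
      · have h' : l' ≠ m := fun h' => hlm (h.symm.trans h')
        rw [if_pos h, if_pos h, if_neg h', if_neg h', mul_one, mul_one, PDD_D1]
      · rw [if_neg h, if_neg h, one_mul, one_mul]
        by_cases h' : l' = m
        · rw [if_pos h', if_pos h', PDD_D1]
        · rw [if_neg h', if_neg h', one_mul, one_mul, PDD_coeff]
    rw [prod_congr rfl (fun l' _ => h2 l'), prod_mul_distrib, prod_mul_distrib,
      prod_ite_eq' univ l, if_pos (mem_univ _), prod_ite_eq' univ m, if_pos (mem_univ _)]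
    unfold wt
    ring

theorem PDD : PDD_stmt := by
  intro N s η k hk h0
  constructor
  · have h1 : ∀ a ∈ ix N k, (wt s a : ℂ) * ∑ l, η l * (a l : ℂ) =
        ∑ l, η l * ((wt s a * (a l : ℝ) : ℝ) : ℂ) := by
      intro a _
      rw [mul_sum]
      refine sum_congr rfl fun l _ => ?_
      push_cast
      ring
    rw [sum_congr rfl h1, sum_comm]
    have h2 : ∀ l : Fin N, ∑ a ∈ ix N k, η l * ((wt s a * (a l : ℝ) : ℝ) : ℂ) =
        ((s l : ℂ) * η l) * ((coeff k (PDD_Y * PDD_C (∑ l, s l)) : ℝ) : ℂ) := by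
      intro l
      rw [← mul_sum, ← Complex.ofReal_sum, PDD_m1]
      push_cast
      ring
    rw [sum_congr rfl (fun l _ => h2 l), ← sum_mul, h0, zero_mul]
  · have hV : coeff k (X * PDD_C 2 * PDD_C (∑ l, s l)) = cc (∑ l, s l + 2) (k - 1) := by
      obtain ⟨n, rfl⟩ : ∃ n, k = n + 1 := ⟨k - 1, by omega⟩
      rw [mul_assoc, coeff_succ_X_mul, PDD_mul, PDD_coeff, Nat.add_sub_cancel, add_comm]
    set U : ℝ := coeff k (PDD_Y * PDD_Y * PDD_C (∑ l, s l)) with hU
    apply Complex.ofReal_injective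
    rw [Complex.ofReal_sum]
    have h1 : ∀ a ∈ ix N k, ((wt s a * ‖∑ l, η l * (a l : ℂ)‖ ^ 2 : ℝ) : ℂ) =
        ∑ l, ∑ m, η l * (starRingEnd ℂ) (η m) * ((wt s a * ((a l : ℝ) * (a m : ℝ)) : ℝ) : ℂ) := by
      intro a _
      have h2 : ((‖∑ l, η l * (a l : ℂ)‖ ^ 2 : ℝ) : ℂ) =
          (∑ l, η l * (a l : ℂ)) * (starRingEnd ℂ) (∑ l, η l * (a l : ℂ)) := by
        rw [Complex.mul_conj']
        push_cast
        rfl
      rw [Complex.ofReal_mul, h2, map_sum, sum_mul_sum, mul_sum]
      refine sum_congr rfl fun l _ => ?_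
      rw [mul_sum]
      refine sum_congr rfl fun m _ => ?_
      rw [map_mul, Complex.conj_natCast]
      push_cast
      ring
    rw [sum_congr rfl h1, sum_comm]
    have h3 : ∀ l : Fin N, ∑ a ∈ ix N k, ∑ m, η l * (starRingEnd ℂ) (η m) *
        ((wt s a * ((a l : ℝ) * (a m : ℝ)) : ℝ) : ℂ) =
        (U : ℂ) * ((s l : ℂ) * η l) * (starRingEnd ℂ) (∑ m, (s m : ℂ) * η m) +
          ((cc (∑ l, s l + 2) (k - 1) * (s l * ‖η l‖ ^ 2) : ℝ) : ℂ) := by
      intro l
      rw [sum_comm]
      have h4 : ∀ m : Fin N, ∑ a ∈ ix N k, η l * (starRingEnd ℂ) (η m) *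
          ((wt s a * ((a l : ℝ) * (a m : ℝ)) : ℝ) : ℂ) =
          (U : ℂ) * ((s l : ℂ) * η l) * ((s m : ℂ) * (starRingEnd ℂ) (η m)) +
          if l = m then ((cc (∑ l, s l + 2) (k - 1) * (s l * ‖η l‖ ^ 2) : ℝ) : ℂ) else 0 := by
        intro m
        rw [← mul_sum, ← Complex.ofReal_sum, PDD_m2, hV, ← hU]
        by_cases hlm : l = m
        · subst hlm
          rw [if_pos rfl, if_pos rfl]
          have h5 : η l * (starRingEnd ℂ) (η l) = ((‖η l‖ ^ 2 : ℝ) : ℂ) := by
            rw [Complex.mul_conj']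
            push_cast
            rfl
          push_cast at h5 ⊢
          linear_combination (cc (∑ l, s l + 2) (k - 1) * s l : ℂ) * h5
        · rw [if_neg hlm, if_neg hlm]
          push_cast
          ring
      rw [sum_congr rfl (fun m _ => h4 m), sum_add_distrib, sum_ite_eq, if_pos (mem_univ _),
        ← mul_sum, map_sum]
      congr 2
      refine sum_congr rfl fun m _ => ?_
      rw [map_mul, Complex.conj_ofReal]
    rw [sum_congr rfl (fun l _ => h3 l), h0, map_zero]
    simp only [mul_zero, zero_add]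
    rw [← Complex.ofReal_sum, ← mul_sum]

end Pool.Agent.GD
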